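import Pool.Agent.V11271.HP.Main

set_option autoImplicit false

/-!
# MP_916a8b_co: an almost complete Harary polynomial

There is a graph property whose Harary polynomial determines almost all graphs.
-/

namespace Pool.Agent.Results.MP_916a8b_co.AlmostComplete

open Finset Filter Topology

/-- A graph property: a class of graphs closed under isomorphism. -/
structure GraphProperty where
  /-- membership in the class -/
  holds : ∀ {V : Type}, SimpleGraph V → Prop
  /-- closure under isomorphism -/
  iso : ∀ {V W : Type} {G : SimpleGraph V} {H : SimpleGraph W}, Nonempty (G ≃g H) → holds G → holds H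

/-- The number of `P`-partitions of `G` with exactly `i` blocks. -/
noncomputable def h (P : GraphProperty) {n : ℕ} (G : SimpleGraph (Fin n)) (i : ℕ) : ℕ :=
  Nat.card {π : Finpartition (univ : Finset (Fin n)) //
    π.parts.card = i ∧ ∀ B ∈ π.parts, P.holds (G.induce (B : Set (Fin n)))}

/-- The Harary polynomial `∑ i ≤ n, h i * k (k - 1) ⋯ (k - i + 1)`. -/
noncomputable def harary (P : GraphProperty) {n : ℕ} (G : SimpleGraph (Fin n)) : Polynomial ℤ :=
  ∑ i ∈ range (n + 1), (h P G i : ℤ) • descPochhammer ℤ i

/-- `G` is determined up to isomorphism, among all finite graphs, by its Harary polynomial. -/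
def IsUnique (P : GraphProperty) {n : ℕ} (G : SimpleGraph (Fin n)) : Prop :=
  ∀ (m : ℕ) (H : SimpleGraph (Fin m)), harary P H = harary P G → Nonempty (H ≃g G)

/-- The Harary polynomial is almost complete for `𝔾(n, 1/2)`. -/
def AlmostCompleteFor (P : GraphProperty) : Prop :=
  Tendsto (fun n : ℕ => (Nat.card {G : SimpleGraph (Fin n) // IsUnique P G} : ℝ) / 2 ^ (n.choose 2)) atTop (𝓝 1)

open V11271.HP

/-- the property defined by sets of types -/
def prop (Q : ∀ m, Finset (Ty m)) : GraphProperty where
  holds {V} G := ∃ (m : ℕ) (e : Fin m ≃ V), m = 1 ∨ mk (G.comap e) ∈ Q m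
  iso := by
    rintro V W G H ⟨f⟩ ⟨m, e, h⟩
    refine ⟨m, e.trans f.toEquiv, h.imp_right fun h => ?_⟩
    convert! h using 2
    ext x y
    simp only [SimpleGraph.comap_adj, Equiv.trans_apply]
    exact f.map_rel_iff

lemma holds_iff (Q : ∀ m, Finset (Ty m)) {n : ℕ} (G : SimpleGraph (Fin n)) (B : Finset (Fin n)) :
    (prop Q).holds (G.induce (B : Set (Fin n))) ↔ blockOK Q G B := by
  constructor
  · rintro ⟨m, e, h⟩
    have hm : m = B.card := by
      have h1 := Fintype.card_congr e
      rw [Fintype.card_fin] at h1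
      rw [h1]
      simp
    subst hm
    unfold blockOK
    refine h.imp_right fun h => ?_
    rw [typ_of_emb G ⟨B, rfl⟩ (e.toEmbedding.trans (Function.Embedding.subtype _)) fun x => (e x).2]
    exact h
  · intro h
    refine ⟨B.card, (B.orderIsoOfFin rfl).toEquiv, ?_⟩
    unfold blockOK at h
    refine h.imp_right fun h => ?_
    exact h

lemma h_eq (Q : ∀ m, Finset (Ty m)) {n : ℕ} (G : SimpleGraph (Fin n)) (i : ℕ) : h (prop Q) G i = hh Q G i := by
  classical
  unfold h hh
  rw [Nat.card_eq_fintype_card, Fintype.card_subtype]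
  congr 1
  ext π
  simp only [mem_filter, mem_univ, true_and, holds_iff]

/-- the coefficients are determined by the polynomial -/
lemma coeff_eq (Q : ∀ m, Finset (Ty m)) {n m : ℕ} (G : SimpleGraph (Fin n)) (H : SimpleGraph (Fin m))
    (he : harary (prop Q) H = harary (prop Q) G) (k : ℕ) : hh Q H k = hh Q G k := by
  have hev : ∀ {n : ℕ} (G : SimpleGraph (Fin n)) (k : ℕ), (harary (prop Q) G).eval (k : ℤ) =
      ∑ i ∈ range (k + 1), (hh Q G i : ℤ) * (k.descFactorial i : ℤ) := by
    intro n G k
    unfold harary
    rw [Polynomial.eval_finsetSum]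
    have h1 : ∀ i, Polynomial.eval (k : ℤ) ((h (prop Q) G i : ℤ) • descPochhammer ℤ i) =
        (hh Q G i : ℤ) * (k.descFactorial i : ℤ) := by
      intro i
      rw [Polynomial.eval_smul, descPochhammer_eval_eq_descFactorial, h_eq, smul_eq_mul]
    rw [sum_congr rfl fun i _ => h1 i]
    have h2 : ∀ i, i ∉ range (n + 1) → (hh Q G i : ℤ) * (k.descFactorial i : ℤ) = 0 := by
      intro i hi
      rw [mem_range, not_lt] at hi
      rw [hh_big Q G (by omega)]
      simp
    have h3 : ∀ i, i ∉ range (k + 1) → (hh Q G i : ℤ) * (k.descFactorial i : ℤ) = 0 := by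
      intro i hi
      rw [mem_range, not_lt] at hi
      rw [Nat.descFactorial_eq_zero_iff_lt.mpr (by omega)]
      simp
    rw [sum_subset (subset_union_left (s₂ := range (k + 1))) fun i _ hi => h2 i hi,
      sum_subset (subset_union_right (s₁ := range (n + 1)) (s₂ := range (k + 1))) fun i _ hi => h3 i hi]
  induction k using Nat.strong_induction_on with
  | _ k ih =>
    have h1 := hev H k
    have h2 := hev G k
    rw [he, h2, sum_range_succ, sum_range_succ] at h1
    have h3 : ∑ i ∈ range k, (hh Q H i : ℤ) * (k.descFactorial i : ℤ) =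
        ∑ i ∈ range k, (hh Q G i : ℤ) * (k.descFactorial i : ℤ) := by
      refine sum_congr rfl fun i hi => ?_
      rw [ih i (mem_range.mp hi)]
    rw [h3] at h1
    have h4 : (hh Q G k : ℤ) * (k.descFactorial k : ℤ) = (hh Q H k : ℤ) * (k.descFactorial k : ℤ) := by
      linarith
    have h5 : (k.descFactorial k : ℤ) ≠ 0 := by
      rw [Nat.descFactorial_self]
      exact_mod_cast k.factorial_ne_zero
    have h6 := mul_right_cancel₀ h5 h4
    exact_mod_cast h6.symm

/-- The question has a negative answer: there is a graph property whose Harary polynomial is almost complete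
for `𝔾(n, 1/2)`. -/
theorem result : ∃ P : GraphProperty, AlmostCompleteFor P := by
  classical
  obtain ⟨Q, hQ⟩ := exists_infinite
  refine ⟨prop Q, ?_⟩
  have hlow : ∀ᶠ n : ℕ in atTop, 1 - (((n : ℝ) + 1) * (2 / (n : ℝ) ^ 3) + (1 / 2) ^ n) ≤
      (Nat.card {G : SimpleGraph (Fin n) // IsUnique (prop Q) G} : ℝ) / 2 ^ (n.choose 2) := by
    filter_upwards [eventually_Good] with n hn
    have hq : 3 * n ^ 9 < 2 ^ (rho n / 16) := hn.2.1
    have hn64 := hn.1
    have h1 : 4 ≤ rho n := by
      by_contra hcon
      have h2 : rho n / 16 = 0 := by omega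
      rw [h2, pow_zero] at hq
      have : 0 < n ^ 9 := by positivity
      omega
    have h2 := card_not_typical (n := n) (ρ := rho n) (by omega) h1 (by
      refine le_trans ?_ hq.le
      calc n ^ 2 ≤ n ^ 9 := Nat.pow_le_pow_right (by omega) (by norm_num)
        _ ≤ 3 * n ^ 9 := Nat.le_mul_of_pos_left _ (by norm_num))
    have h3 := hQ n hn
    rw [card_graphs] at h2
    push_cast at h2
    have h4 : (univ : Finset (SimpleGraph (Fin n))) ⊆ (univ.filter fun G => IsUnique (prop Q) G) ∪
        ((univ.filter fun G => ¬ Typical (rho n) G) ∪ bad Q n) := by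
      intro G _
      rw [mem_union, mem_union, mem_filter, mem_filter]
      by_cases hT : Typical (rho n) G
      · by_cases hb : G ∈ bad Q n
        · exact Or.inr (Or.inr hb)
        · left
          refine ⟨mem_univ _, fun m H hH => ?_⟩
          have h5 := coeff_eq Q G H hH
          have h6 : m = n := by
            rcases lt_trichotomy m n with h7 | h7 | h7
            · have h8 := h5 n
              rw [hh_big Q H h7, hh_top] at h8
              omega
            · exact h7
            · have h8 := h5 m
              rw [hh_big Q G h7, hh_top] at h8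
              omega
          subst h6
          by_contra hcon
          refine hb ?_
          unfold bad
          rw [mem_filter]
          exact ⟨mem_univ _, hT, H, hcon, h5⟩
      · exact Or.inr (Or.inl ⟨mem_univ _, hT⟩)
    have h5 := (card_le_card h4).trans ((card_union_le _ _).trans (Nat.add_le_add_left (card_union_le _ _) _))
    rw [card_univ, card_graphs] at h5
    have h6 : ((2 : ℝ) ^ (n.choose 2)) ≤ ((univ.filter fun G : SimpleGraph (Fin n) => IsUnique (prop Q) G).card : ℝ) +
        (((univ.filter fun G : SimpleGraph (Fin n) => ¬ Typical (rho n) G).card : ℝ) + (bad Q n).card) := by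
      exact_mod_cast h5
    have h7 : (Nat.card {G : SimpleGraph (Fin n) // IsUnique (prop Q) G} : ℝ) =
        ((univ.filter fun G : SimpleGraph (Fin n) => IsUnique (prop Q) G).card : ℝ) := by
      rw [Nat.card_eq_fintype_card, Fintype.card_subtype]
    rw [h7, le_div_iff₀ (by positivity)]
    have h8 : (2 : ℝ) ^ (n.choose 2) / 2 ^ n = 2 ^ (n.choose 2) * (1 / 2) ^ n := by
      rw [one_div, inv_pow, div_eq_mul_inv]
    rw [h8] at h3
    nlinarith
  have hup : ∀ n : ℕ, (Nat.card {G : SimpleGraph (Fin n) // IsUnique (prop Q) G} : ℝ) / 2 ^ (n.choose 2) ≤ 1 := by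
    intro n
    rw [div_le_one (by positivity), Nat.card_eq_fintype_card]
    have h1 := Fintype.card_subtype_le fun G : SimpleGraph (Fin n) => IsUnique (prop Q) G
    rw [card_graphs] at h1
    exact_mod_cast h1
  refine tendsto_of_tendsto_of_tendsto_of_le_of_le' ?_ tendsto_const_nhds hlow (Eventually.of_forall hup)
  have h1 : Tendsto (fun n : ℕ => ((n : ℝ) + 1) * (2 / (n : ℝ) ^ 3)) atTop (𝓝 0) := by
    have h2 : Tendsto (fun n : ℕ => (4 : ℝ) * (1 / (n : ℝ))) atTop (𝓝 0) := by
      have := tendsto_one_div_atTop_nhds_zero_nat.const_mul (4 : ℝ)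
      rwa [mul_zero] at this
    refine squeeze_zero' (Eventually.of_forall fun n => by positivity) ?_ h2
    filter_upwards [eventually_ge_atTop 1] with n hn
    have hn1 : (1 : ℝ) ≤ n := by exact_mod_cast hn
    rw [← mul_div_assoc, ← mul_div_assoc, div_le_div_iff₀ (by positivity) (by positivity)]
    nlinarith [sq_nonneg ((n : ℝ) - 1), mul_nonneg (show (0 : ℝ) ≤ n by linarith) (show (0 : ℝ) ≤ (n : ℝ) - 1 by linarith)]
  have h2 : Tendsto (fun n : ℕ => (1 / 2 : ℝ) ^ n) atTop (𝓝 0) :=
    tendsto_pow_atTop_nhds_zero_of_lt_one (by norm_num) (by norm_num)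
  have h3 := (tendsto_const_nhds (x := (1 : ℝ))).sub (h1.add h2)
  simpa using h3

end Pool.Agent.Results.MP_916a8b_co.AlmostComplete
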